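import Mathlib
import Pool.Agent.Helper397.T4

set_option autoImplicit false

namespace Pool.Agent.Results.MP_17bc6d_lc.AllFiniteColourSets

/-- Let `K` be a finite set of colours and let the pairs of ordinals below `ω₁ · ω₁` be coloured
with the colours `none` and `some i`, `i ∈ K`. Either there is a set `H` of ordinals below
`ω₁ · ω₁`, order isomorphic to `ω₁ · ω` (the set of ordinals below `ω₁ · ω`), all of whose pairs
have the colour `none`, or there are three ordinals below `ω₁ · ω₁` all of whose pairs have the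
same colour `some i`. -/
theorem result (K : Type) [Finite K] (c : Ordinal.{0} → Ordinal.{0} → Option K) :
    (∃ H : Set Ordinal.{0},
        (∀ x ∈ H, x < ((Cardinal.aleph 1).ord : Ordinal.{0}) * ((Cardinal.aleph 1).ord : Ordinal.{0})) ∧
        Nonempty (H ≃o Set.Iio (((Cardinal.aleph 1).ord : Ordinal.{0}) * Ordinal.omega0)) ∧
        ∀ x ∈ H, ∀ y ∈ H, x < y → c x y = none) ∨
    (∃ i : K, ∃ x y z : Ordinal.{0}, x < y ∧ y < z ∧
        z < ((Cardinal.aleph 1).ord : Ordinal.{0}) * ((Cardinal.aleph 1).ord : Ordinal.{0}) ∧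
        c x y = some i ∧ c x z = some i ∧ c y z = some i) := by
  classical
  obtain ⟨k, ⟨e⟩⟩ := Finite.exists_equiv_fin K
  by_cases hno : ∃ i : K, ∃ x y z : Ordinal.{0}, x < y ∧ y < z ∧
        z < ((Cardinal.aleph 1).ord : Ordinal.{0}) * ((Cardinal.aleph 1).ord : Ordinal.{0}) ∧
        c x y = some i ∧ c x z = some i ∧ c y z = some i
  · exact Or.inr hno
  · left
    let g : Option K → Fin (k + 1) := fun o => match o with
      | none => 0
      | some i => (e i).succ
    have g0 : ∀ o, g o = 0 → o = none := by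
      intro o ho
      cases o with
      | none => rfl
      | some i => exact absurd ho (Fin.succ_ne_zero _)
    have g1 : ∀ o (j : Fin k), g o = j.succ → o = some (e.symm j) := by
      intro o j ho
      cases o with
      | none => exact absurd ho.symm (Fin.succ_ne_zero _)
      | some i =>
        have : e i = j := Fin.succ_injective _ ho
        rw [← this]; simp
    obtain ⟨F, hF1, hF2, hF3⟩ := Pool.Agent.Helper397.T4.final k (fun x y => g (c x y)) (by
      rintro ⟨i, hi, a, b, d, hab, hbd, hd, h1, h2, h3⟩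
      obtain ⟨j, rfl⟩ := Fin.exists_succ_eq.mpr hi
      exact hno ⟨e.symm j, a, b, d, hab, hbd, hd, g1 _ _ h1, g1 _ _ h2, g1 _ _ h3⟩)
    refine ⟨F '' Set.Iio (((Cardinal.aleph 1).ord : Ordinal.{0}) * Ordinal.omega0), ?_, ?_, ?_⟩
    · rintro _ ⟨β, hβ, rfl⟩
      exact hF2 β hβ
    · exact ⟨(StrictMonoOn.orderIso F _ hF1).symm⟩
    · rintro _ ⟨β, hβ, rfl⟩ _ ⟨γ, hγ, rfl⟩ hlt
      have hβγ : β < γ := (hF1.lt_iff_lt hβ hγ).mp hlt
      exact g0 _ (hF3 β γ hβγ hγ)

end Pool.Agent.Results.MP_17bc6d_lc.AllFiniteColourSets
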